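import Pool.Agent.Helper96.SE.Goals

/-!
# MP_e44225_nt, project SE, packet SE-RH: the left-hand side at a rational point
-/

open NumberField Height
open Pool.Agent.Results.MP_e44225_nt.SUnitDisproof (logPlus Place nabs Above logPlus_nonneg
  logPlus_mono log_le_logPlus logPlus_eq_posLog nabs_nonneg sum_logPlus_nabs)

namespace Pool.Agent.Helper74.SE

open Pool.Agent.Helper96.SE

universe u

section local_

variable {k : Type u} [Field k] [NumberField k]

theorem logPlus_mul_le {s t : ℝ} (hs : 0 ≤ s) (ht : 0 ≤ t) :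
    logPlus (s * t) ≤ logPlus s + logPlus t := by
  rw [logPlus_eq_posLog hs, logPlus_eq_posLog ht, logPlus_eq_posLog (mul_nonneg hs ht)]
  exact Real.posLog_mul

theorem nabs_mul (v : Place k) (y z : k) : nabs v (y * z) = nabs v y * nabs v z := by
  rcases v with v | v
  · simp only [nabs, Sum.elim_inl, map_mul, mul_pow]
  · simp only [nabs, Sum.elim_inr, map_mul]

theorem logPlus_nabs_mul_le (v : Place k) (y z : k) :
    logPlus (nabs v (y * z)) ≤ logPlus (nabs v y) + logPlus (nabs v z) := by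
  rw [nabs_mul]
  exact logPlus_mul_le (nabs_nonneg v y) (nabs_nonneg v z)

theorem logPlus_nabs_add_le (v : Place k) (y z : k) :
    logPlus (nabs v (y + z)) ≤ 2 * Real.log 2 + logPlus (nabs v y) + logPlus (nabs v z) := by
  have hlog2 : 0 ≤ Real.log 2 := Real.log_nonneg (by norm_num)
  rcases v with v | v
  · have key : Real.posLog (v (y + z)) ≤ Real.log 2 + Real.posLog (v y) + Real.posLog (v z) := by
      have h1 : Real.posLog (v (y + z)) ≤ Real.posLog (v y + v z) :=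
        Real.posLog_le_posLog (apply_nonneg _ _) (by
        have h0 := v.1.add_le y z
        exact h0)
      exact h1.trans Real.posLog_add
    simp only [nabs, Sum.elim_inl]
    rw [logPlus_eq_posLog (pow_nonneg (apply_nonneg _ _) _),
      logPlus_eq_posLog (pow_nonneg (apply_nonneg _ _) _),
      logPlus_eq_posLog (pow_nonneg (apply_nonneg _ _) _),
      Real.posLog_pow, Real.posLog_pow, Real.posLog_pow]
    have hm : (v.mult : ℝ) ≤ 2 := by
      have : v.mult ≤ 2 := by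
        unfold InfinitePlace.mult
        split_ifs <;> norm_num
      exact_mod_cast this
    have hm0 : (0 : ℝ) ≤ v.mult := Nat.cast_nonneg _
    calc (v.mult : ℝ) * Real.posLog (v (y + z))
        ≤ v.mult * (Real.log 2 + Real.posLog (v y) + Real.posLog (v z)) :=
          mul_le_mul_of_nonneg_left key hm0
      _ = v.mult * Real.log 2 + v.mult * Real.posLog (v y) + v.mult * Real.posLog (v z) := by ring
      _ ≤ 2 * Real.log 2 + v.mult * Real.posLog (v y) + v.mult * Real.posLog (v z) := by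
          gcongr
  · simp only [nabs, Sum.elim_inr]
    rw [logPlus_eq_posLog (apply_nonneg _ _), logPlus_eq_posLog (apply_nonneg _ _),
      logPlus_eq_posLog (apply_nonneg _ _)]
    have h1 : Real.posLog (v (y + z)) ≤ Real.posLog (v y + v z) := by
      refine Real.posLog_le_posLog (apply_nonneg _ _) ((FinitePlace.add_le v y z).trans ?_)
      exact max_le (le_add_of_nonneg_right (apply_nonneg _ _))
        (le_add_of_nonneg_left (apply_nonneg _ _))
    have h2 : Real.posLog (v y + v z) ≤ Real.log 2 + Real.posLog (v y) + Real.posLog (v z) :=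
      Real.posLog_add
    linarith

theorem place_geom_le (w : FinitePlace k) (t : k) (ht : w t = 1) (n : ℕ) :
    w (∑ i ∈ Finset.range n, t ^ i) ≤ 1 := by
  induction n with
  | zero => simp
  | succ n ih =>
    rw [Finset.sum_range_succ]
    refine (FinitePlace.add_le w _ _).trans (max_le ih ?_)
    rw [map_pow, ht, one_pow]

end local_

/-- **RH** (the left-hand side at a rational point). -/
theorem rh : RH.{u} := by
  classical
  intro k _ _ n E a₀ a₁ S w₀ hn ha₀ ha₁ ha hS hw₀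
  obtain ⟨δ, hδ⟩ : ∃ δ : k, δ = a₁ - a₀ := ⟨_, rfl⟩
  rw [← hδ]
  have hδ0 : δ ≠ 0 := by
    rw [hδ]
    exact sub_ne_zero.mpr (Ne.symm ha)
  have hn0 : (0 : ℝ) < n := by exact_mod_cast hn
  have hlog2 : 0 ≤ Real.log 2 := Real.log_nonneg (by norm_num)
  obtain ⟨C1, hC1⟩ : ∃ C1 : ℝ, C1 = totalWeight k * Real.log 2 + logHeight₁ a₀ + logHeight₁ δ :=
    ⟨_, rfl⟩
  have hC10 : 0 ≤ C1 := by
    rw [hC1]
    have h1 := zero_le_logHeight₁ a₀
    have h2 := zero_le_logHeight₁ δ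
    positivity
  obtain ⟨A2, hA2⟩ : ∃ A2 : ℝ, A2 = ∑ v ∈ S, (2 * Real.log 2 + logPlus (nabs v (-a₀)) +
    logPlus (nabs v δ⁻¹)) := ⟨_, rfl⟩
  have hA20 : 0 ≤ A2 := by
    rw [hA2]
    refine Finset.sum_nonneg fun v _ => ?_
    have h1 := logPlus_nonneg (nabs v (-a₀))
    have h2 := logPlus_nonneg (nabs v δ⁻¹)
    positivity
  obtain ⟨A3, hA3⟩ : ∃ A3 : ℝ, A3 = ∑ v ∈ S, logPlus (nabs v δ) := ⟨_, rfl⟩
  have hA30 : 0 ≤ A3 := by
    rw [hA3]
    exact Finset.sum_nonneg fun v _ => logPlus_nonneg _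
  have he0 : (0 : ℝ) ≤ 1 / (eInf n E : ℝ) := by positivity
  refine ⟨|kappa n E| * C1 + 1 / (eInf n E : ℝ) * A2 + 1 / (n : ℝ) * A3 +
    1 / (n : ℝ) * |Real.log (w₀ δ)| + C1, ?_⟩
  intro r s hr hs hrs hT hr1 hs1 hxE
  obtain ⟨t, ht⟩ : ∃ t : k, t = (r : k) / (s : k) := ⟨_, rfl⟩
  rw [← ht] at hxE ⊢
  have hr0' : (r : k) ≠ 0 := by exact_mod_cast hr
  have hs0' : (s : k) ≠ 0 := by exact_mod_cast hs
  have ht0 : t ≠ 0 := by
    rw [ht]
    exact div_ne_zero hr0' hs0'
  have htn0 : t ^ n ≠ 0 := pow_ne_zero n ht0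
  have hw₀t : w₀ t = 1 := by
    rw [ht, map_div₀, hr1, hs1, div_one]
  have hTt : ∀ w : FinitePlace k, (Sum.inr w : Place k) ∉ S → w (t ^ n) = 1 := by
    intro w hw
    obtain ⟨h1, h2⟩ := hT w hw
    rw [map_pow, ht, map_div₀, h1, h2, div_one, one_pow]
  obtain ⟨x, hx⟩ : ∃ x : k, x = a₀ + δ * t ^ n := ⟨_, rfl⟩
  rw [← hx] at hxE ⊢
  -- heights
  have hH : logHeight₁ (t ^ n) = (n : ℝ) * logHeight₁ t := logHeight₁_pow t n
  have hup : logHeight₁ x ≤ (n : ℝ) * logHeight₁ t + C1 := by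
    have h1 := logHeight₁_add_le a₀ (δ * t ^ n)
    have h2 := logHeight₁_mul_le δ (t ^ n)
    rw [← hx] at h1
    rw [hC1]
    linarith
  have hτ : t ^ n = δ⁻¹ * (x - a₀) := by
    rw [hx, add_sub_cancel_left, inv_mul_cancel_left₀ hδ0]
  have hlow : (n : ℝ) * logHeight₁ t ≤ logHeight₁ x + C1 := by
    have h1 := logHeight₁_mul_le δ⁻¹ (x - a₀)
    rw [← hτ, logHeight₁_inv] at h1
    have h2 := logHeight₁_sub_le x a₀
    rw [hC1]
    linarith
  -- the third claim
  have h3rd : w₀ (x - a₁) ≤ w₀ δ * w₀ (t - 1) := by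
    have h1 : x - a₁ = δ * ((∑ i ∈ Finset.range n, t ^ i) * (t - 1)) := by
      rw [geom_sum_mul, hx, hδ]
      ring
    rw [h1, map_mul, map_mul]
    refine mul_le_mul_of_nonneg_left ?_ (apply_nonneg _ _)
    exact mul_le_of_le_one_left (apply_nonneg _ _) (place_geom_le w₀ t hw₀t n)
  have hxa₁ : x - a₁ ≠ 0 := by
    rw [sub_ne_zero]
    rintro rfl
    exact hxE ha₁
  have hposx : 0 < w₀ (x - a₁) := FinitePlace.pos_iff.mpr hxa₁
  have hposδ : 0 < w₀ δ := FinitePlace.pos_iff.mpr hδ0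
  have hpost : 0 < w₀ (t - 1) := by
    by_contra h
    have h1 : w₀ (t - 1) = 0 := le_antisymm (not_lt.mp h) (apply_nonneg _ _)
    rw [h1, mul_zero] at h3rd
    linarith
  -- proximity
  have p2 : (n : ℝ) * logHeight₁ t - A2 ≤ ∑ v ∈ S, logPlus (nabs v x) := by
    rw [← hH, ← sum_logPlus_nabs S hS (t ^ n) hTt, hA2, ← Finset.sum_sub_distrib]
    refine Finset.sum_le_sum fun v _ => ?_
    have h1 := logPlus_nabs_mul_le v δ⁻¹ (x - a₀)
    rw [← hτ] at h1
    have h2 := logPlus_nabs_add_le v x (-a₀)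
    rw [← sub_eq_add_neg] at h2
    linarith
  have p3 : (n : ℝ) * logHeight₁ t - A3 ≤ ∑ v ∈ S, logPlus (nabs v (x - a₀)⁻¹) := by
    have h0 : logHeight₁ (t ^ n) = ∑ v ∈ S, logPlus (nabs v (t ^ n)⁻¹) := by
      rw [← logHeight₁_inv]
      refine (sum_logPlus_nabs S hS (t ^ n)⁻¹ fun w hw => ?_).symm
      rw [map_inv₀, hTt w hw, inv_one]
    rw [← hH, h0, hA3, ← Finset.sum_sub_distrib]
    refine Finset.sum_le_sum fun v _ => ?_
    have h1 := logPlus_nabs_mul_le v δ (x - a₀)⁻¹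
    have h2 : δ * (x - a₀)⁻¹ = (t ^ n)⁻¹ := by
      rw [hτ, mul_inv, inv_inv]
    rw [h2] at h1
    linarith
  have p4 : - Real.log (w₀ (t - 1)) - |Real.log (w₀ δ)| ≤
      ∑ v ∈ S, logPlus (nabs v (x - a₁)⁻¹) := by
    refine le_trans ?_ (Finset.single_le_sum (fun v _ => logPlus_nonneg _) hw₀)
    simp only [nabs, Sum.elim_inr]
    rw [map_inv₀]
    refine le_trans ?_ (log_le_logPlus (inv_pos.mpr hposx))
    rw [Real.log_inv]
    have h1 : Real.log (w₀ (x - a₁)) ≤ Real.log (w₀ δ * w₀ (t - 1)) :=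
      Real.log_le_log hposx h3rd
    rw [Real.log_mul hposδ.ne' hpost.ne'] at h1
    have h2 := le_abs_self (Real.log (w₀ δ))
    linarith
  have hprox : 1 / (eInf n E : ℝ) * ∑ v ∈ S, logPlus (nabs v x) +
      1 / (n : ℝ) * ∑ v ∈ S, logPlus (nabs v (x - a₀)⁻¹) +
      1 / (n : ℝ) * ∑ v ∈ S, logPlus (nabs v (x - a₁)⁻¹) ≤ prox₀ n E S x := by
    have hE2 : ({a₀, a₁} : Finset k) ⊆ E := by
      intro a ha'
      simp only [Finset.mem_insert, Finset.mem_singleton] at ha'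
      rcases ha' with rfl | rfl
      · exact ha₀
      · exact ha₁
    have h1 : ∑ v ∈ S, (logPlus (nabs v x) / (eInf n E : ℝ) +
        ∑ a ∈ ({a₀, a₁} : Finset k), logPlus (nabs v (x - a)⁻¹) / (n : ℝ)) ≤ prox₀ n E S x := by
      unfold prox₀
      refine Finset.sum_le_sum fun v _ => ?_
      refine add_le_add le_rfl ?_
      refine Finset.sum_le_sum_of_subset_of_nonneg hE2 fun _ _ _ => ?_
      exact div_nonneg (logPlus_nonneg _) hn0.le
    refine le_trans (le_of_eq ?_) h1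
    rw [Finset.mul_sum, Finset.mul_sum, Finset.mul_sum, ← Finset.sum_add_distrib,
      ← Finset.sum_add_distrib]
    refine Finset.sum_congr rfl fun v _ => ?_
    rw [Finset.sum_pair ha]
    ring
  refine ⟨?_, ?_, h3rd⟩
  · have hk : kappa n E * ((n : ℝ) * logHeight₁ t) - |kappa n E| * C1 ≤
        kappa n E * logHeight₁ x := by
      have h1 : |(n : ℝ) * logHeight₁ t - logHeight₁ x| ≤ C1 := by
        rw [abs_le]
        constructor <;> linarith
      have h2 : kappa n E * ((n : ℝ) * logHeight₁ t - logHeight₁ x) ≤ |kappa n E| * C1 := by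
        calc kappa n E * ((n : ℝ) * logHeight₁ t - logHeight₁ x)
            ≤ |kappa n E * ((n : ℝ) * logHeight₁ t - logHeight₁ x)| := le_abs_self _
          _ = |kappa n E| * |(n : ℝ) * logHeight₁ t - logHeight₁ x| := abs_mul _ _
          _ ≤ |kappa n E| * C1 := mul_le_mul_of_nonneg_left h1 (abs_nonneg _)
      linarith
    have q2 : 1 / (eInf n E : ℝ) * ((n : ℝ) * logHeight₁ t - A2) ≤
        1 / (eInf n E : ℝ) * ∑ v ∈ S, logPlus (nabs v x) := mul_le_mul_of_nonneg_left p2 he0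
    have hn1 : (0 : ℝ) ≤ 1 / (n : ℝ) := by positivity
    have q3 : 1 / (n : ℝ) * ((n : ℝ) * logHeight₁ t - A3) ≤
        1 / (n : ℝ) * ∑ v ∈ S, logPlus (nabs v (x - a₀)⁻¹) := mul_le_mul_of_nonneg_left p3 hn1
    have q4 : 1 / (n : ℝ) * (- Real.log (w₀ (t - 1)) - |Real.log (w₀ δ)|) ≤
        1 / (n : ℝ) * ∑ v ∈ S, logPlus (nabs v (x - a₁)⁻¹) := mul_le_mul_of_nonneg_left p4 hn1
    have hκ : (1 - 1 / (n : ℝ)) * ((E.card : ℝ) - 1) =
        kappa n E + 1 / (eInf n E : ℝ) + 1 / (n : ℝ) := by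
      unfold kappa
      ring
    rw [hκ]
    calc (kappa n E + 1 / (eInf n E : ℝ) + 1 / (n : ℝ)) * ((n : ℝ) * logHeight₁ t) +
          1 / (n : ℝ) * (- Real.log (w₀ (t - 1))) -
          (|kappa n E| * C1 + 1 / (eInf n E : ℝ) * A2 + 1 / (n : ℝ) * A3 +
            1 / (n : ℝ) * |Real.log (w₀ δ)| + C1)
        = (kappa n E * ((n : ℝ) * logHeight₁ t) - |kappa n E| * C1) +
          1 / (eInf n E : ℝ) * ((n : ℝ) * logHeight₁ t - A2) +
          1 / (n : ℝ) * ((n : ℝ) * logHeight₁ t - A3) +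
          1 / (n : ℝ) * (- Real.log (w₀ (t - 1)) - |Real.log (w₀ δ)|) - C1 := by ring
      _ ≤ kappa n E * logHeight₁ x +
          (1 / (eInf n E : ℝ) * ∑ v ∈ S, logPlus (nabs v x) +
          1 / (n : ℝ) * ∑ v ∈ S, logPlus (nabs v (x - a₀)⁻¹) +
          1 / (n : ℝ) * ∑ v ∈ S, logPlus (nabs v (x - a₁)⁻¹)) := by linarith
      _ ≤ kappa n E * logHeight₁ x + prox₀ n E S x := by linarith
  · have h1 : 0 ≤ |kappa n E| * C1 := mul_nonneg (abs_nonneg _) hC10
    have h2 : 0 ≤ 1 / (eInf n E : ℝ) * A2 := mul_nonneg he0 hA20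
    have h3 : 0 ≤ 1 / (n : ℝ) * A3 := by positivity
    have h4 : 0 ≤ 1 / (n : ℝ) * |Real.log (w₀ δ)| := by positivity
    linarith

end Pool.Agent.Helper74.SE
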